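import Pool.Agent.H458.AG.Quad
import Pool.Graph.R_pool_sql_team_seeded_63374d34.N874.Jac.Def

/-!
# Sha of all the quadratic twists in a class, for almost all elliptic curves and hyperelliptic Jacobians

Let `F` be ANY number field (for example `F = ℚ`) and `g ≥ 1`. We consider ALL polynomials
`f = x ^ (2 g + 1) + a_(2 g - 1) x ^ (2 g - 1) + ... + a_0` with coefficients in the ring of integers of `F`,
ordered by the height: `|σ a_i| ≤ B ^ (2 g + 1 - i)` for all embeddings `σ : F → ℂ`. `J_f` is the Jacobian of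
`y ^ 2 = f(x)`, and `J_f ^ d` its quadratic twist by `d`. For `g = 1` these are ALL the elliptic curves
`E : y ^ 2 = x ^ 3 + a x + b` over `F`, with `|a| ≤ B ^ 2`, `|b| ≤ B ^ 3`, and `E ^ d : y ^ 2 = x ^ 3 + a d ^ 2 x + b d ^ 3`.

For a natural number `R` and `f` let `C(f, R)` be the class of all the finite Galois extensions
`M / F` of 2-power degree in which all the primes dividing `R` split completely, such that for every prime `v`
of `F` either `M / F` is unramified at `v` or `f` is irreducible modulo `v`, and such that for every real embedding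
`σ` of `F` either a real embedding of `M` extends `σ` or `σ f` has exactly one real zero.

**Theorem.** Let `W ≥ 1` and let `𝒮` be a finite set of nonzero integers of `F`.

(1) For every `ε > 0` there are a FINITE set `𝒟` of squarefree natural numbers `D ≡ 1 mod 8 W`, with `1 ∈ 𝒟`, and a
multiple `R` of `2 W` and of all `D ∈ 𝒟`, such that for all large `B` ALL the `f` of height at most `B`, with the
exception of a proportion `ε` at most, have for every `d ∈ 𝒮` a `D ∈ 𝒟` such that:

  for ALL the integers `m` of `F` (not squares) such that the quadratic field `F(√m)` belongs to the class `C(f ^ d, R)`,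
  and for `m = 1`, the 2-primary part of the Tate-Shafarevich group over `F` of the twist `J_f ^ (d D m)` is zero and
  multiplication by two is bijective on the group of its points over `F` (so that this group is finite of odd order by
  the theorem of Mordell and Weil);

  for ALL `M ∈ C(f ^ d, R)` the same is true for `J_f ^ (d D)` over `M`.

(2) Let `ω(B)` be ANY function which tends to infinity. For 100 percent of the `f` (the proportion among those of height at
most `B` tends to `1`) there are for every `d ∈ 𝒮` natural numbers `D` (squarefree, `D ≡ 1 mod 8 W`) and `R ≤ ω(B)` (a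
multiple of `2 W D`) with the properties in (1).

For `F = ℚ`, `g = 1` the condition on `m` is: the primes dividing `R` split in `ℚ(√m)` (`m` is a square modulo `8 R`), the
cubic `x ^ 3 + a d ^ 2 x + b d ^ 3` is irreducible modulo all the primes which divide `m` (`m` squarefree), and `m > 0` if
the cubic has three real zeros. By the theorem of Chebotarev there are infinitely many such `m`, for the curves with a
cubic with group `S_3` (of order `X / (log X) ^ (2 / 3)` up to `X`). So for almost all elliptic curves `E` over `ℚ` the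
Tate-Shafarevich groups over `ℚ` of ALL the twists of `E ^ D` by these `m` have trivial 2-primary part AT THE SAME TIME,
for one number `D` of a finite set which does not depend on `E`, or `D ≤ ω(height)`.

What was known: for one curve without points of order two the existence of infinitely many quadratic twists with
trivial 2-Selmer group is a theorem of Mazur and Rubin (Yu for Jacobians); that a bounded `D` is sufficient for almost
all curves is our `MP_7cad78_nt.FiniteSetsOfTwists` (over `F` and the `M`). New: the simultaneous statement for ALL the twists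
by the `m` of an explicit infinite class (a square class condition at bounded primes and nothing but irreducibility
at the ramified ones), for every genus.

Proof. The 2-Selmer group of `J' = J_f ^ (d D)` over `M = F(√m)` is zero (project AG). Let `h(θ)` be a class in the
2-Selmer group of `J' ^ m` over `F`, `θ` a zero of `f'`, of square norm. Over `M` the curves are isomorphic, so
`h(m θ)` is a square in `M(θ)`; so `h(m θ) = u ^ 2` or `m u ^ 2` with `u ∈ F(θ)`. The norm of `m u ^ 2` is not a square, because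
the degree of `f` is odd and `m` is not a square. So the class is trivial.
In this run the parts of project AG for genus `g` were proved by helpers 30, 47, 71, 80, 102, 118, 139, 152, 166, 231,
234, 236, 294, 295, 307, 322, 348, 372, 383, 650, 686 and 945, on top of the library and of helper459's modules.
-/

set_option autoImplicit false
set_option linter.all false

namespace Pool.Agent.Results.MP_e23604_nt.AllTwistsInTheClass

open Polynomial Filter IsDedekindDomain NumberField
open Pool.Agent.N874.Jac (J UniquelyTwoDivisible ShaTwoTrivialReal)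
open scoped Classical

section defs

variable {F : Type} [Field F] [NumberField F]

/-- `f` is a monic polynomial of degree `2 g + 1` with integral coefficients, without term of degree
`2 g`, and of height at most `B`: all conjugates of the coefficient of degree `j` are at most
`B ^ (2 g + 1 - j)` in absolute value. -/
structure IsPoly (g B : ℕ) (f : (𝓞 F)[X]) : Prop where
  monic : f.Monic
  degree : f.natDegree = 2 * g + 1
  trace : f.coeff (2 * g) = 0
  height : ∀ j ≤ 2 * g, ∀ σ : F →+* ℂ, ‖σ (f.coeff j : F)‖ ≤ (B : ℝ) ^ (2 * g + 1 - j)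

variable (F) in
/-- The polynomials `f` of height at most `B`. -/
def Polys (g B : ℕ) : Set (𝓞 F)[X] := {f | IsPoly g B f}

/-- `f` is irreducible modulo `v`. -/
def IrreducibleMod (f : (𝓞 F)[X]) (v : HeightOneSpectrum (𝓞 F)) : Prop :=
  Irreducible (f.map (Ideal.Quotient.mk v.asIdeal))

/-- `d ^ (2 g + 1) f(x / d)`: the coefficient of degree `j` is multiplied by `d ^ (2 g + 1 - j)`. The curve
`y ^ 2 = twist f d` is the quadratic twist by `d` of the curve `y ^ 2 = f(x)`. -/
noncomputable def twist (f : (𝓞 F)[X]) (d : 𝓞 F) : (𝓞 F)[X] := f.scaleRoots d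

/-- `M / F` is unramified at `v`. -/
def Unramified (v : HeightOneSpectrum (𝓞 F)) (M : Type) [Field M] [NumberField M]
    [Algebra F M] : Prop :=
  ∀ w : HeightOneSpectrum (𝓞 M), v.asIdeal.map (algebraMap (𝓞 F) (𝓞 M)) ≤ w.asIdeal →
    ¬ v.asIdeal.map (algebraMap (𝓞 F) (𝓞 M)) ≤ w.asIdeal ^ 2

/-- `v` splits completely in `M`: it is unramified and all integers of `M` are congruent to integers of
`F` modulo every prime over `v`. -/
def SplitsCompletely (v : HeightOneSpectrum (𝓞 F)) (M : Type) [Field M] [NumberField M]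
    [Algebra F M] : Prop :=
  Unramified v M ∧
  ∀ w : HeightOneSpectrum (𝓞 M), v.asIdeal.map (algebraMap (𝓞 F) (𝓞 M)) ≤ w.asIdeal →
    ∀ y : 𝓞 M, ∃ c : 𝓞 F, y - algebraMap (𝓞 F) (𝓞 M) c ∈ w.asIdeal

/-- The extension `M / F` belongs to the class `C(f, R)` of the number `R` and the polynomial `f`. -/
structure InClass (R : ℕ) (f : (𝓞 F)[X]) (M : Type) [Field M] [NumberField M] [Algebra F M] : Prop where
  galois : IsGalois F M
  degree : ∃ n : ℕ, Module.finrank F M = 2 ^ n
  split : ∀ v : HeightOneSpectrum (𝓞 F), (R : 𝓞 F) ∈ v.asIdeal → SplitsCompletely v M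
  ramified : ∀ v : HeightOneSpectrum (𝓞 F), Unramified v M ∨ IrreducibleMod f v
  real : ∀ σ : F →+* ℝ, (∃ ρ : M →+* ℝ, ρ.comp (algebraMap F M) = σ) ∨
    ∃! e : ℝ, (f.map (σ.comp (algebraMap (𝓞 F) F))).eval e = 0

/-- The polynomial `f` over the extension `M` of `F`. -/
noncomputable def overM (M : Type) [Field M] [Algebra F M] (f : (𝓞 F)[X]) : M[X] :=
  (f.map (algebraMap (𝓞 F) F)).map (algebraMap F M)

/-- Multiplication by two is bijective on `J(M)`, `J` the Jacobian of `y ^ 2 = P(x)`, and the 2-primary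
part of the Tate-Shafarevich group of `J` over `M` is zero. -/
def NoTwoPart {M : Type} [Field M] [NumberField M] (P : M[X]) : Prop :=
  UniquelyTwoDivisible P ∧ ShaTwoTrivialReal P (𝓞 M)

/-- The properties of the twist of `f` by `c` in the theorem: over all the fields `M` in the class of `f₀`, and for the
twists over `F` by all the `m` such that `F(√m)` is in the class of `f₀`. -/
structure Good (R : ℕ) (f₀ f : (𝓞 F)[X]) (c : 𝓞 F) : Prop where
  extensions : ∀ (M : Type) [Field M] [NumberField M] [Algebra F M], InClass R f₀ M →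
    NoTwoPart (overM M (twist f c))
  twists : ∀ (M : Type) [Field M] [NumberField M] [Algebra F M], InClass R f₀ M →
    Module.finrank F M = 2 → ∀ (m : 𝓞 F) (δ : M), δ ^ 2 = algebraMap F M (m : F) → ¬ IsSquare (m : F) →
    NoTwoPart (overM F (twist f (c * m)))

end defs

section pf

variable {F : Type} [Field F] [NumberField F]

theorem cls_of {M : Type} [Field M] [NumberField M] [Algebra F M] {R : ℕ} {f : (𝓞 F)[X]}
    (h : InClass R f M) : Pool.Agent.H458.AG.ClsM F M R f where
  spl := fun v hv => ⟨Pool.Agent.H458.AG.Gen.unr_of (h.split v hv).1, (h.split v hv).2⟩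
  unr := fun v => (h.ramified v).imp Pool.Agent.H458.AG.Gen.unr_of id
  real := fun σ => (h.real σ).imp id fun h' => by
    unfold Pool.Agent.N783.PF.fF
    rw [Polynomial.map_map]
    exact h'

/-- `M = F` belongs to all the classes. -/
theorem self_mem (R : ℕ) (f : (𝓞 F)[X]) : InClass R f F := by
  have h2 := Pool.Agent.H458.AG.Gen.cls_base (F := F) R f
  exact ⟨inferInstance, ⟨0, by rw [Module.finrank_self, pow_zero]⟩,
    fun v hv => ⟨Pool.Agent.H458.AG.Gen.of_unr (h2.spl v hv).1, (h2.spl v hv).2⟩,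
    fun v => Or.inl (Pool.Agent.H458.AG.Gen.of_unr (Pool.Agent.H458.AU.unr_self v)),
    fun σ => Or.inl ⟨σ, by
    ext x
    rfl⟩⟩

theorem good_of {g R : ℕ} {𝒟 : Finset ℕ} {𝒮 : Finset (𝓞 F)}
    (h𝒮 : ∀ d ∈ 𝒮, d ≠ 0) (hD0 : ∀ D ∈ 𝒟, Squarefree D) {f : (𝓞 F)[X]}
    (hf : f ∈ Pool.Agent.H458.AG.Gen.VV F g R 𝒟 𝒮) {d : 𝓞 F} (hd : d ∈ 𝒮) :
    ∃ D ∈ 𝒟, Good R (twist f d) f (d * (D : 𝓞 F)) := by
  obtain ⟨D, hD, h⟩ := hf.2.2.2 d hd
  have h0 : (D : 𝓞 F) ≠ 0 := Nat.cast_ne_zero.2 (hD0 D hD).ne_zero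
  have hm : (f.scaleRoots (d * (D : 𝓞 F))).Monic := (monic_scaleRoots_iff _).2 hf.1
  have hdeg : (f.scaleRoots (d * (D : 𝓞 F))).natDegree = 2 * g + 1 := by
    rw [natDegree_scaleRoots, hf.2.1]
  have hirr := Pool.Agent.H458.AG.Gen.irr_scale (mul_ne_zero (h𝒮 d hd) h0) hf.1 hf.2.2.1
  have hsel : ∀ (M : Type) [Field M] [NumberField M] [Algebra F M], InClass R (twist f d) M →
      Pool.Agent.N783.PF.SelZero (Pool.Agent.H459.UF.fo M (f.scaleRoots (d * (D : 𝓞 F)))) := by
    intro M _ _ _ hM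
    haveI := hM.galois
    obtain ⟨n, hn⟩ := hM.degree
    have h1 := h M n hn (cls_of hM)
    rwa [← scaleRoots_mul] at h1
  refine ⟨D, hD, fun M _ _ _ hM => ?_, fun M _ _ _ hM h2 m δ hδ hns => ?_⟩
  · obtain ⟨n, hn⟩ := hM.degree
    have ho : Odd (f.scaleRoots (d * (D : 𝓞 F))).natDegree := by
      rw [hdeg]
      exact odd_two_mul_add_one _
    exact Pool.Agent.H458.AG.Gen.key hn hm ho hirr (hsel M hM)
  · have h3 := Pool.Agent.H458.AG.Quad.twist_down h2 hm hdeg hirr hδ hns (hsel M hM)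
    rw [← scaleRoots_mul] at h3
    exact h3

end pf

theorem part1 (F : Type) [Field F] [NumberField F] (g : ℕ) (hg : 1 ≤ g) (W : ℕ) (hW : 0 < W)
    (𝒮 : Finset (𝓞 F)) (h𝒮 : ∀ d ∈ 𝒮, d ≠ 0) (ε : ℝ) (hε : 0 < ε) :
    (∀ B : ℕ, (Polys F g B).Finite) ∧
    ∃ (R : ℕ) (𝒟 : Finset ℕ), 0 < R ∧ 2 * W ∣ R ∧ 1 ∈ 𝒟 ∧
      (∀ D ∈ 𝒟, Squarefree D ∧ D ≡ 1 [MOD 8 * W] ∧ D ∣ R) ∧
      ∀ᶠ B : ℕ in atTop, 0 < (Polys F g B).ncard ∧
        (1 - ε) * ((Polys F g B).ncard : ℝ) ≤ ({f ∈ Polys F g B | ∀ d ∈ 𝒮, ∃ D ∈ 𝒟,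
          Good R (twist f d) f (d * (D : 𝓞 F))}.ncard : ℝ) := by
  have heq : ∀ B, Polys F g B = {f : (𝓞 F)[X] | Pool.Agent.N783.PF.Ht g B f} := by
    intro B
    ext f
    exact ⟨fun h => ⟨h.monic, h.degree, h.trace, fun j hj σ => h.height j hj σ⟩,
      fun h => ⟨h.mon, h.deg, h.tr, fun j hj σ => h.ht j hj σ⟩⟩
  obtain ⟨hfin, R, 𝒟, hR, hWR, h1, hD, hX⟩ := Pool.Agent.H458.AG.Gen.part F W hW 𝒮 h𝒮 ε hε g hg
  have hfin' : ∀ B : ℕ, (Polys F g B).Finite := fun B => by
    rw [heq]
    exact hfin B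
  refine ⟨hfin', R, 𝒟, hR, hWR, h1, hD, ?_⟩
  filter_upwards [hX] with B hB
  obtain ⟨h2, h3⟩ := hB
  rw [← heq] at h2 h3
  refine ⟨h2, h3.trans ?_⟩
  have h4 := Set.ncard_le_ncard (s := Pool.Agent.H458.AG.Gen.VV F g R 𝒟 𝒮 ∩ Polys F g B)
    (t := {f ∈ Polys F g B | ∀ d ∈ 𝒮, ∃ D ∈ 𝒟, Good R (twist f d) f (d * (D : 𝓞 F))})
    (fun f hf => ⟨hf.2, fun d hd => good_of h𝒮 (fun D hD' => (hD D hD').1) hf.1 hd⟩)
    ((hfin' B).subset fun f hf => hf.1)
  exact_mod_cast h4

/-- **Sha of all the quadratic twists in a class, for almost all curves.** For every number field `F`, every `g ≥ 1`,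
`W ≥ 1` and every finite set `𝒮` of nonzero integers of `F`: (1) for every `ε > 0` there are a finite set `𝒟` of
squarefree natural numbers `D ≡ 1 mod 8 W` and a multiple `R` of `2 W` and of all `D ∈ 𝒟` such that for all large `B` at
least `(1 - ε)` times the number of ALL the `f` of height at most `B` have for every `d ∈ 𝒮` a `D ∈ 𝒟` such that the
Jacobians of the twists of `y ^ 2 = f(x)` by `d D m` over `F`, for ALL the `m` (not squares) such that `F(√m)` belongs to
the class `C(f ^ d, R)`, have a bijective multiplication by two on the points over `F` and a Tate-Shafarevich group over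
`F` with trivial 2-primary part, and the same for the twist by `d D` over ALL the `M` in the class (among them `F`).
(2) For every `ω` which tends to infinity there are for 100 percent of the `f` and all `d ∈ 𝒮` such `D` and
`R ≤ ω(B)`. -/
theorem result (F : Type) [Field F] [NumberField F] (g : ℕ) (hg : 1 ≤ g) (W : ℕ) (hW : 0 < W)
    (𝒮 : Finset (𝓞 F)) (h𝒮 : ∀ d ∈ 𝒮, d ≠ 0) :
    (∀ B : ℕ, (Polys F g B).Finite) ∧ (∀ (R : ℕ) (f : (𝓞 F)[X]), InClass R f F) ∧
    -- one finite set of twists for all but `ε` of all the polynomials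
    (∀ ε : ℝ, 0 < ε → ∃ (R : ℕ) (𝒟 : Finset ℕ), 0 < R ∧ 2 * W ∣ R ∧ 1 ∈ 𝒟 ∧
      (∀ D ∈ 𝒟, Squarefree D ∧ D ≡ 1 [MOD 8 * W] ∧ D ∣ R) ∧
      ∀ᶠ B : ℕ in atTop, 0 < (Polys F g B).ncard ∧
        (1 - ε) * ((Polys F g B).ncard : ℝ) ≤ ({f ∈ Polys F g B | ∀ d ∈ 𝒮, ∃ D ∈ 𝒟,
          Good R (twist f d) f (d * (D : 𝓞 F))}.ncard : ℝ)) ∧
    -- 100 percent of the polynomials, with `D` and `R` below any function which tends to infinity
    ∀ ω : ℕ → ℝ, Tendsto ω atTop atTop →
      Tendsto (fun B : ℕ => ({f ∈ Polys F g B | ∀ d ∈ 𝒮, ∃ D R : ℕ, Squarefree D ∧ D ≡ 1 [MOD 8 * W] ∧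
        0 < R ∧ 2 * W ∣ R ∧ D ∣ R ∧ (R : ℝ) ≤ ω B ∧ Good R (twist f d) f (d * (D : 𝓞 F))}.ncard : ℝ) /
          ((Polys F g B).ncard : ℝ)) atTop (nhds 1) := by
  have hfin : ∀ B : ℕ, (Polys F g B).Finite := (part1 F g hg W hW 𝒮 h𝒮 1 one_pos).1
  refine ⟨hfin, self_mem, fun ε hε => (part1 F g hg W hW 𝒮 h𝒮 ε hε).2, fun ω hω => ?_⟩
  rw [Metric.tendsto_atTop]
  intro ε hε
  obtain ⟨-, R, 𝒟, hR, hWR, h1, hD, hX⟩ := part1 F g hg W hW 𝒮 h𝒮 (ε / 2) (half_pos hε)
  obtain ⟨B₀, hB₀⟩ := eventually_atTop.1 (hX.and (hω.eventually_ge_atTop (R : ℝ)))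
  refine ⟨B₀, fun B hBB => ?_⟩
  obtain ⟨⟨hpos, hgood⟩, hωB⟩ := hB₀ B hBB
  obtain ⟨G, hG⟩ : ∃ G : Set (𝓞 F)[X], G = {f ∈ Polys F g B | ∀ d ∈ 𝒮, ∃ D R : ℕ, Squarefree D ∧
    D ≡ 1 [MOD 8 * W] ∧ 0 < R ∧ 2 * W ∣ R ∧ D ∣ R ∧ (R : ℝ) ≤ ω B ∧
    Good R (twist f d) f (d * (D : 𝓞 F))} := ⟨_, rfl⟩
  rw [← hG]
  have hsub : {f ∈ Polys F g B | ∀ d ∈ 𝒮, ∃ D ∈ 𝒟, Good R (twist f d) f (d * (D : 𝓞 F))} ⊆ G := by
    rintro f ⟨hf1, hf2⟩
    rw [hG]
    refine ⟨hf1, fun d hd => ?_⟩
    obtain ⟨D, hD1, h2⟩ := hf2 d hd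
    exact ⟨D, R, (hD D hD1).1, (hD D hD1).2.1, hR, hWR, (hD D hD1).2.2, hωB, h2⟩
  have hGf : G.Finite := (hfin B).subset (by rw [hG]; exact fun p hp => hp.1)
  have c1 := Set.ncard_le_ncard hsub hGf
  have c3 := Set.ncard_le_ncard (show G ⊆ Polys F g B by rw [hG]; exact fun p hp => hp.1) (hfin B)
  obtain ⟨N, hN⟩ : ∃ N : ℝ, N = ((Polys F g B).ncard : ℝ) := ⟨_, rfl⟩
  have hN0 : 0 < N := by rw [hN]; exact_mod_cast hpos
  have c4 : (1 - ε / 2) * N ≤ G.ncard := by
    rw [hN]
    exact hgood.trans (by exact_mod_cast c1)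
  have c5 : (G.ncard : ℝ) ≤ N := by rw [hN]; exact_mod_cast c3
  rw [← hN]
  rw [Real.dist_eq, abs_sub_lt_iff]
  constructor
  · have : (G.ncard : ℝ) / N ≤ 1 := (div_le_one hN0).2 c5
    linarith
  · have : 1 - ε / 2 ≤ (G.ncard : ℝ) / N := by
      rw [le_div_iff₀ hN0]
      linarith
    linarith

end Pool.Agent.Results.MP_e23604_nt.AllTwistsInTheClass
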