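import Pool.Agent.H459.UD.FinD

/-!
# Trivial 2-Selmer groups in every residue class and for all signs (helper459)

Let `F` be a number field (for instance `ℚ`), `F'` a finite extension of `F`, `m > 0` an integer and
`a₁, b₁, u` integers of `F`, `u ≠ 0`, such that no prime `v` of `F` over `2 m` has `v⁴ ∣ a₁` and
`v⁶ ∣ b₁`. There is a finite set `Z` of primes of `F`, completely split in `F'` and prime to `2 m`, such
that a positive proportion of all elliptic curves `y² = x³ + a x + b` over `F`, ordered by height, has the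
property `RC Z m a₁ b₁ u`: the curve is in the residue class, `a ≡ a₁` and `b ≡ b₁` modulo `m`; the
discriminant has the prescribed signs, `4 a³ + 27 b²` has the sign of `u` at every real place; and over
`F` and over EVERY Galois extension `M` of `F` of 2-power degree with `AdmD F M Z m (a, b)` (the primes
of `Z` and the primes over `2 m` split completely in `M`, the primes modulo which the cubic
`x³ + a x + b` has a zero are unramified in `M`, and the real places at which `4 a³ + 27 b²` is negative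
split completely in `M`) the 2-Selmer group is zero, there is no 2-part in the Tate-Shafarevich group and
the group of points is finite of odd order.
-/

set_option autoImplicit false

open Polynomial NumberField IsDedekindDomain
open scoped Classical

namespace Pool.Agent.Results.MP_e23604_nt.EveryResidueClass

open Pool.Agent.N783.PF (Crv)
open Pool.Agent.H459.UF (Unr Deg1)
open Pool.Agent.H459.UD (RC)

theorem result (F : Type) [Field F] [NumberField F] (F' : Type) [Field F'] [NumberField F']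
    [Algebra F F'] (m : ℕ) (hm : 0 < m) (a₁ b₁ u : 𝓞 F) (hu : u ≠ 0)
    (hmin : ∀ v : HeightOneSpectrum (𝓞 F), ((2 * m : ℕ) : 𝓞 F) ∈ v.asIdeal →
      ¬ (a₁ ∈ v.asIdeal ^ 4 ∧ b₁ ∈ v.asIdeal ^ 6)) :
    ∃ (Z : Set (HeightOneSpectrum (𝓞 F))), Z.Finite ∧ (∀ v ∈ Z, Unr F F' v ∧ Deg1 F F' v) ∧
    (∀ v ∈ Z, ((2 * m : ℕ) : 𝓞 F) ∉ v.asIdeal) ∧
    ∃ c : ℝ, 0 < c ∧ ∃ Y₀ : ℝ, ∀ Y : ℝ, {p : 𝓞 F × 𝓞 F | Crv Y p}.Finite ∧
      (Y₀ ≤ Y → 0 < {p : 𝓞 F × 𝓞 F | Crv Y p}.ncard ∧
        c * ({p : 𝓞 F × 𝓞 F | Crv Y p}.ncard : ℝ) ≤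
          ({p : 𝓞 F × 𝓞 F | Crv Y p ∧ RC Z m a₁ b₁ u p}.ncard : ℝ)) :=
  Pool.Agent.H459.UD.finD F F' m hm a₁ b₁ u hu hmin

end Pool.Agent.Results.MP_e23604_nt.EveryResidueClass
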