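import Mathlib
import Pool.Graph.R_seed8.W307.RT.Tors
import Pool.Agent.H514.IS.Tu5
import Pool.Agent.H514.GL.Fin2
import Pool.Agent.H514.CL.Main

/-!
# The law of the 2-primary Tate-Shafarevich groups in the isogeny class of the elliptic curves with
full rational 2-torsion

All elliptic curves `E : y² = x³ + A x + B` over `ℚ` all of whose 2-torsion is rational, ordered by
height. Let `e₀ < e₁ < e₂` be the roots of `x³ + A x + B`, `Tᵢ = (eᵢ, 0)` the points of order two, and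
`Eᵢ = E / ⟨Tᵢ⟩` the three quotients (for almost all `E` these are the other curves of the isogeny
class of `E`), and let `r` be their common rank. For every fixed `k ≥ 1`:

* the groups `Ш(E/ℚ)[2^k]` and `2 Ш(Eᵢ/ℚ)[2^k]`, and `2^r`, are bounded in probability;
* the vector `(log₂ #Ш(Eᵢ/ℚ)[2^k] - (3 / 2) log log H) / √((5 / 2) log log H)`, `i = 0, 1, 2`,
  converges in law to three independent standard normal variables.

So for fixed `k` the group `Ш(E)[2^k]` is small and `Ш(Eᵢ)[2^k]` is, up to groups bounded in probability,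
the group `(ℤ/2)^Nᵢ` with `Nᵢ = (3 / 2) log log H + ξᵢ √((5 / 2) log log H)` and independent standard normal `ξᵢ`.

The Tate-Shafarevich group `ShaQ W` is the one of the problem: classes of continuous cocycles of
`Gal(ℚ̄/ℚ)` with values in `W(ℚ̄)` that become coboundaries over all the completions `ℚ_p` and `ℝ`
(file `Pool.Graph.R_pool_sql_team_seeded_f72693b1.W262.SH.Def`).

Outline. With `A = e_j - e_i`, `B = e_k - e_i` the curve `Eᵢ` is `y² = x (x² + 2 (A + B) x + (A - B)²)`, and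
`log₂ #Ш(Eᵢ)[2]` is, up to an error with bounded mean square, the additive function
`#{p | A B} - #{q | A - B, (A/q) = 1}` (descent by the two isogenies, duality of the matrices of
symbols, bounded second moment of the 2-Selmer group of `E`). The vector of the contributions of one
prime `p` to the three additive functions is `(1,1,1) - eᵢ` or `(1,1,1) - 2 eᵢ` with the probabilities
`1 / (2 p)` (for each `i`, up to `O(1 / p²)`), whose mean value is `(3 / (2 p)) (1,1,1)` and whose matrix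
of second moments is `(5 / (2 p))` times the identity. The characteristic function of the vector is
computed by the expansion of a product over the primes up to `exp(c log H / log log H)` with lattice
points of the region `u² + u v + v² ≤ R` in residue classes, and the theorem of Lévy gives the law for
`k = 1`. The isogenies `E → Eᵢ → E` have degree 2 and their compositions are the multiplication by 2;
the induced homomorphisms of the groups `Ш` give `#Ш(Eᵢ)[2^k] ≤ #Ш(Eᵢ)[2] (#Ш(E)[2])^k` and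
`#2Ш(Eᵢ)[2^k] ≤ (#Ш(E)[2])^k`, and `2^r #Ш(E)[2]` has a bounded second moment.
-/

set_option autoImplicit false

namespace Pool.Agent.Results.MP_e23604_nt.IsogenyClassLaw

open Finset Filter ProbabilityTheory

open Pool.Agent.W262.SH (ShaQ)

/-- the curve `y² = x³ + A x + B` over `ℚ` -/
def E (A B : ℤ) : WeierstrassCurve ℚ := ⟨0, 0, 0, (A : ℚ), (B : ℚ)⟩

open Classical in
/-- The pairs `(A, B)` of integers such that `4 A³ + 27 B² ≠ 0`, there is no prime `p` with
`p⁴ ∣ A` and `p⁶ ∣ B`, the height `max (4 |A|³) (27 B²)` is at most `H`, and `Z/2 x Z/2` embeds in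
the group of the rational points of `y² = x³ + A x + B`. (The bounds `|A|, |B| ≤ H` follow from the
bound of the height. Every elliptic curve over `ℚ` is isomorphic to `E A B` for exactly one pair
with the first two properties.) -/
noncomputable def Fam (H : ℕ) : Finset (ℤ × ℤ) :=
  ((Icc (-(H : ℤ)) H) ×ˢ (Icc (-(H : ℤ)) H)).filter (fun c : ℤ × ℤ =>
    4 * c.1 ^ 3 + 27 * c.2 ^ 2 ≠ 0 ∧ 4 * |c.1| ^ 3 ≤ H ∧ 27 * c.2 ^ 2 ≤ H ∧
    (∀ p : ℕ, p.Prime → ¬ ((p : ℤ) ^ 4 ∣ c.1 ∧ (p : ℤ) ^ 6 ∣ c.2)) ∧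
    ∃ f : ZMod 2 × ZMod 2 →+ (E c.1 c.2).toAffine.Point, Function.Injective f)

/-- `e 0 < e 1 < e 2` are the roots of `x³ + A x + B`: `(e i, 0)` are the points of order two of
the curve `E c.1 c.2` -/
def Roots (c : ℤ × ℤ) (e : Fin 3 → ℤ) : Prop :=
  e 0 < e 1 ∧ e 1 < e 2 ∧ ∀ i, (e i) ^ 3 + c.1 * e i + c.2 = 0

/-- The quotient of `y² = x³ + A x + B` by the subgroup generated by its point `(e, 0)` of order
two, that is `y² = x³ - 6 e x² - (3 e² + 4 A) x` (for the curve `y² = x (x² + a x + b)` the quotient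
by `(0, 0)` is `y² = x (x² - 2 a x + a² - 4 b)`, and here `a = 3 e` and `b = 3 e² + A`). -/
def Quo (A e : ℤ) : WeierstrassCurve ℚ := ⟨0, -6 * (e : ℚ), 0, -3 * (e : ℚ) ^ 2 - 4 * (A : ℚ), 0⟩

/-- the rank of the group of the rational points -/
noncomputable def rk (W : WeierstrassCurve ℚ) : ℕ := Module.finrank ℤ W.toAffine.Point

/-- the group `Ш(W/ℚ)[2 ^ k]` of the elements of `Ш(W/ℚ)` killed by `2 ^ k` -/
def ShaP (k : ℕ) (W : WeierstrassCurve ℚ) : Type := {x : ShaQ W // (2 ^ k : ℕ) • x = 0}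

/-- the group `2 Ш(W/ℚ)[2 ^ k]` of the doubles of the elements of `Ш(W/ℚ)` killed by `2 ^ k` -/
def ShaD (k : ℕ) (W : WeierstrassCurve ℚ) : Type :=
  {x : ShaQ W // ∃ y : ShaQ W, (2 ^ k : ℕ) • y = 0 ∧ x = (2 : ℕ) • y}

/-- the conditions `2 ^ rank(E) #Ш(E)[2 ^ k] ≤ ω(H)` and, for `i = 0, 1, 2`,
`2 ^ rank(Eᵢ) #2Ш(Eᵢ)[2 ^ k] ≤ ω(H)` and
`log₂ #Ш(Eᵢ)[2 ^ k] ≤ (3 / 2) log log H + xᵢ √((5 / 2) log log H)` on the curve `E = E c.1 c.2` and its
quotients `Eᵢ = E / ⟨(eᵢ, 0)⟩` -/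
def Cond (k : ℕ) (ω : ℕ → ℝ) (H : ℕ) (x : Fin 3 → ℝ) (c : ℤ × ℤ) (e : Fin 3 → ℤ) : Prop :=
  (2 : ℝ) ^ rk (E c.1 c.2) * Nat.card (ShaP k (E c.1 c.2)) ≤ ω H ∧
  ∀ i, (2 : ℝ) ^ rk (Quo c.1 (e i)) * Nat.card (ShaD k (Quo c.1 (e i))) ≤ ω H ∧
    Real.logb 2 (Nat.card (ShaP k (Quo c.1 (e i)))) ≤
      3 / 2 * Real.log (Real.log H) + x i * Real.sqrt (5 / 2 * Real.log (Real.log H))

open Classical in
/-- the curves `E` of height at most `H` with the conditions `Cond` -/
noncomputable def Low (k : ℕ) (ω : ℕ → ℝ) (H : ℕ) (x : Fin 3 → ℝ) : Finset (ℤ × ℤ) :=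
  (Fam H).filter (fun c => ∃ e : Fin 3 → ℤ, Roots c e ∧ Cond k ω H x c e)

lemma Fam_eq (H : ℕ) : Fam H = Pool.Agent.W307.RT.Cv 2 H := by
  classical
  unfold Fam Pool.Agent.W307.RT.Cv
  apply filter_congr
  intro c _
  have h : Pool.Agent.W307.RT.HasT 2 (Pool.Agent.W307.RT.Sh c.1 c.2) ↔
      ∃ f : ZMod 2 × ZMod 2 →+ (E c.1 c.2).toAffine.Point, Function.Injective f :=
    Pool.Agent.W307.RT.tors_iff
  rw [h]

/-- **Theorem.** For the elliptic curves `E` over `ℚ` with full rational 2-torsion: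

1. the number of those of height at most `H` tends to infinity;
2. the points of order two of `E` are `(eᵢ, 0)` with unique `e₀ < e₁ < e₂`;
3. the groups `Ш(E)[2^k]` and `Ш(Eᵢ)[2^k]`, `Eᵢ = E / ⟨(eᵢ, 0)⟩`, are finite, and `Eᵢ` has the rank of `E`;
4. for every `k ≥ 1`, every function `ω(H)` tending to infinity and all real `x₀, x₁, x₂` the
proportion of the curves `E` of height at most `H` with `2 ^ rank(E) #Ш(E)[2^k] ≤ ω(H)`,
`2 ^ rank(Eᵢ) #2Ш(Eᵢ)[2^k] ≤ ω(H)` and
`log₂ #Ш(Eᵢ)[2^k] ≤ (3 / 2) log log H + xᵢ √((5 / 2) log log H)` for `i = 0, 1, 2`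
tends to `Φ(x₀) Φ(x₁) Φ(x₂)`, where `Φ` is the distribution function of the standard normal law. -/
theorem result :
    Tendsto (fun H : ℕ => (Fam H).card) atTop atTop ∧
    (∀ H : ℕ, ∀ c ∈ Fam H, ∃! e : Fin 3 → ℤ, Roots c e) ∧
    (∀ H : ℕ, ∀ c ∈ Fam H, ∀ e : Fin 3 → ℤ, Roots c e → ∀ k : ℕ, Finite (ShaP k (E c.1 c.2)) ∧
      ∀ i, Finite (ShaP k (Quo c.1 (e i))) ∧ Finite (ShaD k (Quo c.1 (e i))) ∧
        rk (Quo c.1 (e i)) = rk (E c.1 c.2)) ∧
    ∀ k : ℕ, 1 ≤ k → ∀ ω : ℕ → ℝ, Tendsto ω atTop atTop → ∀ x : Fin 3 → ℝ,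
      Tendsto (fun H : ℕ => ((Low k ω H x).card : ℝ) / (Fam H).card) atTop
        (nhds (∏ i, (gaussianReal 0 1 (Set.Iic (x i))).toReal)) := by
  classical
  have hex : ∀ H : ℕ, ∀ c ∈ Pool.Agent.W307.RT.Cv 2 H, ∃ e : Fin 3 → ℤ, Roots c e :=
    fun H c hc => Pool.Agent.H514.GL.rts_ex hc
  choose! e he using hex
  have hun : ∀ {c : ℤ × ℤ} {f g : Fin 3 → ℤ}, Roots c f → Roots c g → f = g :=
    fun h1 h2 => Pool.Agent.H514.GL.rts_uniq h1 h2
  refine ⟨?_, ?_, ?_, ?_⟩
  · simp only [Fam_eq]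
    exact Pool.Agent.W307.RT.tendsto_of_low Pool.Agent.H514.low2
  · intro H c hc
    rw [Fam_eq] at hc
    exact ⟨e H c, he H c hc, fun f hf => hun hf (he H c hc)⟩
  · intro H c hc f hf k
    rw [Fam_eq] at hc
    exact ⟨(Pool.Agent.H514.CL.fin_E hc k).1, fun i => ⟨(Pool.Agent.H514.CL.fin_Q hc (hf.2.2 i) k).1,
      (Pool.Agent.H514.CL.fin_D hc (hf.2.2 i) k).1, Pool.Agent.H514.CL.rank_Q hc (hf.2.2 i)⟩⟩
  · intro k hk ω hω x
    set e' : ℤ × ℤ → Fin 3 → ℤ := fun c =>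
      if h : ∃ f : Fin 3 → ℤ, Roots c f then h.choose else 0 with he'
    have hr : ∀ H : ℕ, ∀ c ∈ Pool.Agent.W307.RT.Cv 2 H, Roots c (e' c) := by
      intro H c hc
      have h : ∃ f : Fin 3 → ℤ, Roots c f := ⟨e H c, he H c hc⟩
      rw [he']
      simp only [h, dif_pos]
      exact h.choose_spec
    have hlaw := Pool.Agent.H514.CL.class_law e' hr k hk ω hω x
    refine hlaw.congr fun H => ?_
    have h1 : Low k ω H x = (Pool.Agent.W307.RT.Cv 2 H).filter
        (Pool.Agent.H514.CL.P2 e' k ω x H) := by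
      ext c
      unfold Low
      rw [Fam_eq, mem_filter, mem_filter]
      refine and_congr_right fun hc => ?_
      rw [Pool.Agent.H514.CL.p3_iff]
      constructor
      · rintro ⟨f, hf, h⟩
        rw [hun hf (hr H c hc)] at h
        exact h
      · intro h
        exact ⟨e' c, hr H c hc, h⟩
    rw [h1, Fam_eq]
    rfl

end Pool.Agent.Results.MP_e23604_nt.IsogenyClassLaw
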