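import Mathlib
import Pool.Graph.R_seed8.W307.RT.Tors
import Pool.Agent.H514.FinK

/-!
# The moments of `2 ^ rank * #Ш[2]` over the elliptic curves with full rational 2-torsion

All elliptic curves over `ℚ` all of whose 2-torsion is rational, ordered by height. We bound every
moment of `2 ^ rank E(ℚ) * #Ш(E/ℚ)[2]`: the second moment is bounded by a constant, and for `m ≥ 3`
the average of the `m`-th powers over the curves of height at most `H` is
`O((log H) ^ (2 ^ (m - 1) - 5 / 2 + 2 ^ (1 - m)))`.

The Tate-Shafarevich group `ShaQ W` is the one of the problem: classes of continuous cocycles of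
`Gal(ℚ̄/ℚ)` with values in `W(ℚ̄)` that become coboundaries over all the completions `ℚ_p` and `ℝ`
(file `Pool.Graph.R_pool_sql_team_seeded_f72693b1.W262.SH.Def`).

Outline. The curve is `y² = x (x - A) (x - B)` up to a twist by a square-free `g`. A complete
2-descent bounds `2 ^ rank * #Ш[2]` by the number of pairs of square classes that are locally the
image of a point; the local conditions at the primes dividing `A`, `B` and `A - B` exactly once are
evaluated exactly and at the primes dividing `g` they are linear. The `m`-th power of this number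
is expanded in the style of Heath-Brown into a sum over factorisations of `A`, `B`, `A - B` and `g`
with Jacobi symbols; the symbols are averaged out with the sieve and character sum estimates of the
library (project RT), and the factorisations without a symbol are counted with a theorem of
Nair-Tenenbaum type for divisor functions of the three linear forms.
-/

set_option autoImplicit false

namespace Pool.Agent.Results.MP_e23604_nt.MomentsFullTwoTorsion

open Finset Filter

open Pool.Agent.W262.SH (Sha2)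

/-- the curve `y² = x³ + A x + B` over `ℚ` -/
def E (A B : ℤ) : WeierstrassCurve ℚ := ⟨0, 0, 0, (A : ℚ), (B : ℚ)⟩

open Classical in
/-- The pairs `(A, B)` of integers such that `4 A³ + 27 B² ≠ 0`, there is no prime `p` with
`p⁴ ∣ A` and `p⁶ ∣ B`, the height `max (4 |A|³) (27 B²)` is at most `H`, and `Z/2 x Z/2` embeds in
the group of the rational points of `y² = x³ + A x + B`. (The bounds `|A|, |B| ≤ H` follow from the
bound of the height. Every elliptic curve over `ℚ` is isomorphic to `E A B` for exactly one pair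
with the first two properties.) -/
noncomputable def Fam (H : ℕ) : Finset (ℤ × ℤ) :=
  ((Icc (-(H : ℤ)) H) ×ˢ (Icc (-(H : ℤ)) H)).filter (fun c : ℤ × ℤ =>
    4 * c.1 ^ 3 + 27 * c.2 ^ 2 ≠ 0 ∧ 4 * |c.1| ^ 3 ≤ H ∧ 27 * c.2 ^ 2 ≤ H ∧
    (∀ p : ℕ, p.Prime → ¬ ((p : ℤ) ^ 4 ∣ c.1 ∧ (p : ℤ) ^ 6 ∣ c.2)) ∧
    ∃ f : ZMod 2 × ZMod 2 →+ (E c.1 c.2).toAffine.Point, Function.Injective f)

lemma Fam_eq (H : ℕ) : Fam H = Pool.Agent.W307.RT.Cv 2 H := by
  classical
  unfold Fam Pool.Agent.W307.RT.Cv
  apply filter_congr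
  intro c _
  have h : Pool.Agent.W307.RT.HasT 2 (Pool.Agent.W307.RT.Sh c.1 c.2) ↔
      ∃ f : ZMod 2 × ZMod 2 →+ (E c.1 c.2).toAffine.Point, Function.Injective f :=
    Pool.Agent.W307.RT.tors_iff
  rw [h]

/-- **Theorem.** For the elliptic curves over `ℚ` with full rational 2-torsion: the number of the
curves of height at most `H` tends to infinity, `Ш(E/ℚ)[2]` is finite, the average of
`(2 ^ rank E(ℚ) * #Ш(E/ℚ)[2]) ^ 2` over the curves of height at most `H` is bounded, and for all
`m ≥ 3` the average of `(2 ^ rank E(ℚ) * #Ш(E/ℚ)[2]) ^ m` is at most a constant times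
`(1 + log H) ^ (2 ^ (m - 1) - 5 / 2 + 2 ^ (1 - m))`. -/
theorem result :
    Tendsto (fun H : ℕ => (Fam H).card) atTop atTop ∧
    (∀ H : ℕ, ∀ c ∈ Fam H, Finite (Sha2 (E c.1 c.2))) ∧
    (∃ C : ℝ, ∀ H : ℕ,
      ∑ c ∈ Fam H, ((2 : ℝ) ^ Module.finrank ℤ (E c.1 c.2).toAffine.Point *
        Nat.card (Sha2 (E c.1 c.2))) ^ 2 ≤ C * (Fam H).card) ∧
    ∀ m : ℕ, 3 ≤ m → ∃ C : ℝ, ∀ H : ℕ,
      ∑ c ∈ Fam H, ((2 : ℝ) ^ Module.finrank ℤ (E c.1 c.2).toAffine.Point *
        Nat.card (Sha2 (E c.1 c.2))) ^ m ≤
          C * (1 + Real.log H) ^ ((2 : ℝ) ^ m / 2 - 5 / 2 + 2 / 2 ^ m) * (Fam H).card := by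
  classical
  simp only [Fam_eq, Pool.Agent.W262.SH.sha2_eq]
  refine ⟨Pool.Agent.W307.RT.tendsto_of_low Pool.Agent.H514.low2,
    fun H c hc => Pool.Agent.H514.fin_sha hc, ?_, fun m hm => ?_⟩
  · obtain ⟨C, hC⟩ := Pool.Agent.H514.main_sha 2 le_rfl
    refine ⟨C, fun H => ?_⟩
    have h1 := hC H
    have h2 : Pool.Agent.H514.LgK 2 H = 1 := by
      unfold Pool.Agent.H514.LgK Pool.Agent.H514.th
      norm_num
    rw [h2, mul_one] at h1
    exact h1
  · obtain ⟨C, hC⟩ := Pool.Agent.H514.main_sha m (by omega)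
    exact ⟨C, hC⟩

end Pool.Agent.Results.MP_e23604_nt.MomentsFullTwoTorsion
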